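import Mathlib
import Pool.Agent.X79.TypedUse

/-!
# MP_6ce170: a three-colour Ramsey variant of the Nešetřil–Rödl theorem

For all `k ≥ ℓ ≥ 3` there is a finite graph `G` with `G ↛ (K_k, K_ℓ)` and
`G → (K_{k-1}, K_{k-1}, K_ℓ)`.
-/

namespace Pool.Agent.Results.MP_6ce170_co.AllPairs

open Pool.Agent.X79

/-- `G → (K_{a 0}, …, K_{a (r-1)})`: for every colouring of the pairs of vertices (hence of the
edges of `G`) with the colours `0, …, r-1` there are a colour `i` and a set of `a i` vertices any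
two of which are joined by an edge of `G` of colour `i`. -/
def Arrows {V : Type} (G : SimpleGraph V) {r : ℕ} (a : Fin r → ℕ) : Prop :=
  ∀ c : Sym2 V → Fin r, ∃ i : Fin r, ∃ s : Finset V, s.card = a i ∧
    ∀ x ∈ s, ∀ y ∈ s, x ≠ y → G.Adj x y ∧ c s(x, y) = i

theorem result (k ℓ : ℕ) (hℓ : 3 ≤ ℓ) (hk : ℓ ≤ k) :
    ∃ (V : Type) (_ : Finite V) (G : SimpleGraph V),
      ¬ Arrows G ![k, ℓ] ∧ Arrows G ![k - 1, k - 1, ℓ] := by
  classical
  obtain ⟨X, hX, Γ, hcf, hdisj, h⟩ := TU.main (Fin 2) (Fin 3) k (by omega)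
  have h01 : (0 : Fin 2) ≠ 1 := by decide
  by_cases hkl : ℓ = k
  · subst hkl
    refine ⟨X, hX, Γ 0 ⊔ Γ 1, ?_, ?_⟩
    · intro hA
      have hdec : ∀ z : Sym2 X, ∃ c : Fin 2, (z ∈ (Γ 0).edgeSet → c = 0) ∧
          (z ∈ (Γ 1).edgeSet → c = 1) := by
        intro z
        induction z using Sym2.ind with
        | _ x y =>
          by_cases hz : (Γ 0).Adj x y
          · refine ⟨0, fun _ => rfl, fun h1 => ?_⟩
            exact hdisj _ _ _ _ hz h1
          · exact ⟨1, fun h0 => absurd h0 hz, fun _ => rfl⟩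
      choose c hc0 hc1 using hdec
      obtain ⟨i, s, hs, hcl⟩ := hA c
      have hi : i = 0 ∨ i = 1 := by fin_cases i <;> simp
      rcases hi with rfl | rfl
      · apply hcf 0 s
        refine ⟨fun x hx y hy hxy => ?_, by simpa using hs⟩
        obtain ⟨h1, h2⟩ := hcl x hx y hy hxy
        rcases h1 with h1 | h1
        · exact h1
        · have := hc1 _ ((Γ 1).mem_edgeSet.2 h1)
          rw [h2] at this
          exact absurd this h01
      · apply hcf 1 s
        refine ⟨fun x hx y hy hxy => ?_, by simpa using hs⟩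
        obtain ⟨h1, h2⟩ := hcl x hx y hy hxy
        rcases h1 with h1 | h1
        · have := hc0 _ ((Γ 0).mem_edgeSet.2 h1)
          rw [h2] at this
          exact absurd this.symm h01
        · exact h1
    · intro c
      obtain ⟨φ, h1, h2⟩ := h (fun x y => c s(x, y)) (fun x y => by rw [Sym2.eq_swap])
      have hmono : ∀ t : Fin 2, φ t ≠ 2 → ∃ i : Fin 3, ∃ s : Finset X,
          s.card = ![ℓ - 1, ℓ - 1, ℓ] i ∧
          ∀ x ∈ s, ∀ y ∈ s, x ≠ y → (Γ 0 ⊔ Γ 1).Adj x y ∧ c s(x, y) = i := by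
        intro t ht
        obtain ⟨t', ht'⟩ : ∃ t' : Fin 2, t ≠ t' := by
          by_cases h0 : t = 0
          · exact ⟨1, by rw [h0]; exact h01⟩
          · exact ⟨0, h0⟩
        obtain ⟨s, hs, hcl⟩ := h1 t t' ht'
        refine ⟨φ t, s, ?_, fun x hx y hy hxy => ?_⟩
        · rw [hs]
          have : φ t = 0 ∨ φ t = 1 := by omega
          rcases this with h | h <;> rw [h] <;> rfl
        · obtain ⟨g1, g2⟩ := hcl x hx y hy hxy
          refine ⟨?_, g2⟩
          have : t = 0 ∨ t = 1 := by omega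
          rcases this with rfl | rfl
          · exact Or.inl g1
          · exact Or.inr g1
      by_cases g0 : φ 0 = 2
      · by_cases g1 : φ 1 = 2
        · obtain ⟨s, hs, hcl⟩ := h2 0 1 h01
          obtain ⟨s', hs', hcard⟩ := Finset.exists_subset_card_eq (s := s) (n := ℓ) (by omega)
          refine ⟨2, s', by rw [hcard]; rfl, fun x hx y hy hxy => ?_⟩
          rcases hcl x (hs' hx) y (hs' hy) hxy with ⟨e1, e2⟩ | ⟨e1, e2⟩
          · exact ⟨Or.inl e1, e2.trans g0⟩
          · exact ⟨Or.inr e1, e2.trans g1⟩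
        · exact hmono 1 g1
      · exact hmono 0 g0
  · refine ⟨X, hX, Γ 0, ?_, ?_⟩
    · intro hA
      obtain ⟨i, s, hs, hcl⟩ := hA (fun _ => 0)
      have hi : i = 0 ∨ i = 1 := by fin_cases i <;> simp
      rcases hi with rfl | rfl
      · exact hcf 0 s ⟨fun x hx y hy hxy => (hcl x hx y hy hxy).1, by simpa using hs⟩
      · have hs' : s.card = ℓ := by simpa using hs
        have hne : s.Nonempty := by rw [← Finset.card_pos]; omega
        obtain ⟨x, hx⟩ := hne
        obtain ⟨y, hy, hxy⟩ := Finset.exists_mem_ne (s := s) (by omega) x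
        exact absurd (hcl x hx y hy hxy.symm).2 h01
    · intro c
      obtain ⟨φ, h1, -⟩ := h (fun x y => c s(x, y)) (fun x y => by rw [Sym2.eq_swap])
      obtain ⟨s, hs, hcl⟩ := h1 0 1 h01
      by_cases g0 : φ 0 = 2
      · obtain ⟨s', hs', hcard⟩ := Finset.exists_subset_card_eq (s := s) (n := ℓ) (by omega)
        refine ⟨2, s', by rw [hcard]; rfl, fun x hx y hy hxy => ?_⟩
        obtain ⟨e1, e2⟩ := hcl x (hs' hx) y (hs' hy) hxy
        exact ⟨e1, e2.trans g0⟩
      · refine ⟨φ 0, s, ?_, fun x hx y hy hxy => hcl x hx y hy hxy⟩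
        rw [hs]
        have : φ 0 = 0 ∨ φ 0 = 1 := by omega
        rcases this with h | h <;> rw [h] <;> rfl

end Pool.Agent.Results.MP_6ce170_co.AllPairs
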